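import Pool.Agent.CutLim.G
import Pool.Agent.TightN.ListsT

/-!
CUT, part C3: the law of the cut levels in terms of lists of sites; the critical bridges.
-/

set_option autoImplicit false

namespace HexObs

open Finset MeasureTheory TopologicalSpace

open scoped ENNReal

namespace CC

/-- the rows s ≤ T that are cut rows of the list, and 0, divided by T -/
noncomputable def cutsL (T : ℕ) (L : List (ℤ × ℤ)) : CutLim.NC :=
  ⟨⟨{x : ℝ | ∃ s : ℕ, s ≤ T ∧ (s = 0 ∨ RowCut L s) ∧ x = (s : ℝ) / T}, by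
    refine Set.Finite.isCompact (((Set.finite_le_nat T).image (fun c : ℕ => (c : ℝ) / T)).subset ?_)
    rintro x ⟨c, h1, h2, rfl⟩
    exact ⟨c, h1, rfl⟩⟩, ⟨0, 0, Nat.zero_le _, Or.inl rfl, by simp⟩⟩

lemma rowCut_top {j : ℕ} (hj : 1 ≤ j) {t : List Bool} (ht : t ∈ Brd j) : RowCut (toL oo t) j := by
  obtain ⟨b, hb, -⟩ := crossing_toL hj lv_oo (brd_out.1 ht)
  refine ⟨toL oo t, [], (List.append_nil _).symm, ?_, ?_⟩
  · intro p hp
    exact (hb.2.2.1 p hp).2
  · intro p hp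
    exact absurd hp List.not_mem_nil

lemma cut_top {j : ℕ} {t : List Bool} (ht : t ∈ Brd j) : Cut t j :=
  ⟨t, [], 0, ht, nil_mem_Brd, (List.append_nil t).symm⟩

/-- the cut levels of words and lists -/
theorem cutset_toL {T j : ℕ} (hT : 1 ≤ T) (hj : T ≤ j) {t : List Bool} (ht : t ∈ Brd j) :
    CutLim.cutset T t = cutsL T (toL oo t) := by
  have h : ∀ s : ℕ, s ≤ T → ((s = 0 ∨ Cut t s) ↔ (s = 0 ∨ RowCut (toL oo t) s)) := by
    intro s hs
    rcases Nat.eq_zero_or_pos s with h0 | h0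
    · simp [h0]
    · have h1 : Cut t s ↔ RowCut (toL oo t) s := by
        rcases Nat.lt_or_ge s j with h2 | h2
        · exact (rowCut_iff ht h0 h2).symm
        · have h3 : s = j := by omega
          rw [h3]
          exact ⟨fun _ => rowCut_top (by omega) ht, fun _ => cut_top ht⟩
      rw [h1]
  apply NonemptyCompacts.ext
  ext x
  constructor
  · rintro ⟨c, h1, h2, h3⟩
    exact ⟨c, h1, (h c h1).1 h2, h3⟩
  · rintro ⟨c, h1, h2, h3⟩
    exact ⟨c, h1, (h c h1).2 h2, h3⟩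

/-- the law of the cut levels of the half plane walk in terms of lists -/
theorem lawS_lists {T : ℕ} (hT : 1 ≤ T) :
    (Measure.sum fun L : {L : List (ℤ × ℤ) // Stop T L} => wt L.1 • Measure.dirac (cutsL T L.1)) = CutLim.lawS T := by
  ext S hS
  unfold CutLim.lawS
  rw [Measure.sum_apply _ hS, Measure.sum_apply _ hS, ← (wordEquiv hT).tsum_eq]
  refine tsum_congr fun t => ?_
  rw [wordEquiv_coe, wt_toL]
  obtain ⟨j, hj⟩ := t.2
  rw [cutset_toL hT hj.2.1 hj.1]

end CC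

end HexObs

namespace CutLim

open Filter Topology Finset MeasureTheory TopologicalSpace HexObs

open scoped ENNReal

/-- the law of the rescaled set of the cut levels of the critical bridge of N rows (0 and N are cut levels) -/
noncomputable def lawB (N : ℕ) : Measure NC :=
  Measure.sum fun t : {t : List Bool // t ∈ Brd N} => (wE t.1 / BT N) • Measure.dirac (cutset N t.1)

theorem BT_uu (N : ℕ) : BT N = ENNReal.ofReal (uu N) := by
  unfold uu
  rw [ENNReal.ofReal_toReal (CutH.BT_ne_top'' N)]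

theorem lawB_apply (N : ℕ) {S : Set NC} (hS : MeasurableSet S) :
    lawB N S = gf {t | t ∈ Brd N ∧ cutset N t ∈ S} / BT N := by
  classical
  unfold lawB
  rw [Measure.sum_apply _ hS]
  unfold gf
  rw [tsum_subtype {t | t ∈ Brd N ∧ cutset N t ∈ S} wE]
  have e : ∀ t : {t : List Bool // t ∈ Brd N}, ((wE t.1 / BT N) • Measure.dirac (cutset N t.1)) S =
      (fun t : List Bool => if cutset N t ∈ S then wE t / BT N else 0) t.1 := by
    intro t
    rw [Measure.smul_apply, Measure.dirac_apply' _ hS, smul_eq_mul]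
    by_cases hx : cutset N t.1 ∈ S
    · rw [Set.indicator_of_mem hx, Pi.one_apply, mul_one]
      exact (if_pos hx).symm
    · rw [Set.indicator_of_notMem hx, mul_zero]
      exact (if_neg hx).symm
  rw [tsum_congr e]
  rw [tsum_subtype (Brd N) (fun t : List Bool => if cutset N t ∈ S then wE t / BT N else 0)]
  rw [ENNReal.div_eq_inv_mul, ← ENNReal.tsum_mul_left]
  refine tsum_congr fun t => ?_
  by_cases h1 : t ∈ Brd N
  · rw [Set.indicator_of_mem h1]
    by_cases h2 : cutset N t ∈ S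
    · rw [if_pos h2, Set.indicator_of_mem (show t ∈ {t | t ∈ Brd N ∧ cutset N t ∈ S} from ⟨h1, h2⟩),
        ENNReal.div_eq_inv_mul]
    · rw [if_neg h2, Set.indicator_of_notMem (fun h3 : t ∈ {t | t ∈ Brd N ∧ cutset N t ∈ S} => h2 h3.2), mul_zero]
  · rw [Set.indicator_of_notMem h1,
      Set.indicator_of_notMem (fun h3 : t ∈ {t | t ∈ Brd N ∧ cutset N t ∈ S} => h1 h3.1), mul_zero]

theorem lawB_univ (N : ℕ) : lawB N Set.univ = 1 := by
  rw [lawB_apply N MeasurableSet.univ]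
  have h1 : {t | t ∈ Brd N ∧ cutset N t ∈ (Set.univ : Set NC)} = Brd N := by
    ext t
    exact ⟨fun h => h.1, fun h => ⟨h, trivial⟩⟩
  rw [h1, gf_Brd]
  apply ENNReal.div_self
  · rw [BT_uu]
    exact (ENNReal.ofReal_pos.2 (uu_pos N)).ne'
  · exact CutH.BT_ne_top'' N

/-- the bridges of N rows without cut levels in G -/
theorem gf_avoidB (G : Set ℕ) {N : ℕ} (hN : 1 ≤ N) :
    gf {t | t ∈ Brd N ∧ ∀ c, 1 ≤ c → c ≤ N → c ∈ G → ¬ Cut t c} = ENNReal.ofReal (avs G N) := by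
  have ha := avs_AvSeq G
  by_cases hG : N ∈ G
  · rw [ha.mem N hN hG, ENNReal.ofReal_zero]
    have h1 : {t | t ∈ Brd N ∧ ∀ c, 1 ≤ c → c ≤ N → c ∈ G → ¬ Cut t c} = ∅ := by
      ext t
      constructor
      · rintro ⟨h1, h2⟩
        exact absurd (CC.cut_top h1) (h2 N hN le_rfl hG)
      · exact fun h => absurd h (Set.notMem_empty t)
    rw [h1]
    unfold gf
    simp
  · rw [ha.not_mem N hN hG, ← gf_Brd_noCut ha hN]
    congr 1
    ext t
    constructor
    · rintro ⟨h1, h2⟩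
      exact ⟨h1, fun c h3 h4 h5 => h2 c h4 (by omega) h3⟩
    · rintro ⟨h1, h2⟩
      refine ⟨h1, fun c h3 h4 h5 => ?_⟩
      rcases Nat.lt_or_ge c N with h6 | h6
      · exact h2 c h5 h3 h6
      · have h7 : c = N := by omega
        rw [h7] at h5
        exact absurd h5 hG

theorem mem_AvC_iff {m T : ℕ} (hm : 1 ≤ m) (hT : 1 ≤ T) (A : Finset ℕ) (t : List Bool) :
    cutset T t ∈ AvC m A ↔ ∀ c, 1 ≤ c → c ≤ T → c ∈ cells m A T → ¬ Cut t c := by
  have hm' : (0 : ℝ) < m := by exact_mod_cast hm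
  have hT' : (0 : ℝ) < T := by exact_mod_cast hT
  have hcell : ∀ c l : ℕ, ((l : ℝ) / m < (c : ℝ) / T ∧ (c : ℝ) / T ≤ ((l : ℝ) + 1) / m) ↔
      (l * T < m * c ∧ m * c ≤ (l + 1) * T) := by
    intro c l
    rw [div_lt_div_iff₀ hm' hT', div_le_div_iff₀ hT' hm']
    have h1 : (l : ℝ) * T < (c : ℝ) * m ↔ l * T < m * c := by
      rw [mul_comm (c : ℝ) m]
      exact_mod_cast Iff.rfl
    have h2 : (c : ℝ) * m ≤ ((l : ℝ) + 1) * T ↔ m * c ≤ (l + 1) * T := by
      rw [mul_comm (c : ℝ) m]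
      exact_mod_cast Iff.rfl
    rw [h1, h2]
  constructor
  · rintro h2 c hc1 hc2 ⟨l, hl, h3⟩ hcut
    exact h2 _ (mem_cutset.2 ⟨c, hc2, Or.inr hcut, rfl⟩) l hl ((hcell c l).2 h3)
  · intro h2 x hx l hl h3
    obtain ⟨c, hc, hcut, rfl⟩ := mem_cutset.1 hx
    have h4 := (hcell c l).1 h3
    have hc1 : 1 ≤ c := by
      rcases Nat.eq_zero_or_pos c with h | h
      · rw [h, mul_zero] at h4
        omega
      · exact h
    rcases hcut with h | h
    · omega
    · exact h2 c hc1 hc ⟨l, hl, h4⟩ h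

theorem mem_AvI_iff {T : ℕ} (hT : 1 ≤ T) {x y : ℝ} (hx : 0 ≤ x) (hxy : x < y) (t : List Bool) :
    cutset T t ∈ AvI x y ↔ ∀ c, 1 ≤ c → c ≤ T → c ∈ Set.Ioc ⌊x * T⌋₊ ⌊y * T⌋₊ → ¬ Cut t c := by
  have hT' : (0 : ℝ) < T := by exact_mod_cast hT
  have hy0 : 0 ≤ y := hx.trans hxy.le
  have hiff : ∀ c : ℕ, (c : ℝ) / T ∈ Set.Ioc x y ↔ c ∈ Set.Ioc ⌊x * T⌋₊ ⌊y * T⌋₊ := by
    intro c
    rw [Set.mem_Ioc, Set.mem_Ioc, lt_div_iff₀ hT', div_le_iff₀ hT', Nat.floor_lt (by positivity),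
      Nat.le_floor_iff (by positivity)]
  constructor
  · intro h4 c hc1 hc2 hc3 hcut
    exact Set.disjoint_left.1 h4 (mem_cutset.2 ⟨c, hc2, Or.inr hcut, rfl⟩) ((hiff c).2 hc3)
  · intro h4
    show Disjoint _ _
    rw [Set.disjoint_left]
    intro z hz hz2
    obtain ⟨c, hc, hcut, rfl⟩ := mem_cutset.1 hz
    have h5 := (hiff c).1 hz2
    have hc1 : 1 ≤ c := by have := h5.1; omega
    rcases hcut with h | h
    · omega
    · exact h4 c hc1 hc h5 h

theorem lawB_AvC {m N : ℕ} (hm : 1 ≤ m) (hN : 1 ≤ N) (A : Finset ℕ) :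
    lawB N (AvC m A) = ENNReal.ofReal (avs (cells m A N) N / uu N) := by
  rw [lawB_apply N (measurableSet_AvC m A), ENNReal.ofReal_div_of_pos (uu_pos N), ← gf_avoidB _ hN, ← BT_uu]
  congr 2
  ext t
  exact and_congr_right fun _ => mem_AvC_iff hm hN A t

theorem lawB_AvI {N : ℕ} (hN : 1 ≤ N) {x y : ℝ} (hx : 0 ≤ x) (hxy : x < y) :
    lawB N (AvI x y) = ENNReal.ofReal (avs (Set.Ioc ⌊x * N⌋₊ ⌊y * N⌋₊) N / uu N) := by
  rw [lawB_apply N (measurableSet_AvI x y), ENNReal.ofReal_div_of_pos (uu_pos N), ← gf_avoidB _ hN, ← BT_uu]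
  congr 2
  ext t
  exact and_congr_right fun _ => mem_AvI_iff hN hx hxy t

end CutLim

namespace HexObs

namespace CC

open Finset MeasureTheory TopologicalSpace

open scoped ENNReal

/-- the words of the bridges and the lists -/
noncomputable def bridgeEquiv {N : ℕ} (hN : 1 ≤ N) :
    {t : List Bool // t ∈ Brd N} ≃ {L : List (ℤ × ℤ) // ∃ b, Crossing N 0 b L} :=
  Equiv.ofBijective (fun t => ⟨toL oo t.1, by
      obtain ⟨b, hb, -⟩ := crossing_toL hN lv_oo (brd_out.1 t.2)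
      exact ⟨b, hb⟩⟩) (by
    constructor
    · rintro ⟨t, ht⟩ ⟨s, hs⟩ h
      have h1 : toL oo t = toL oo s := congrArg Subtype.val h
      exact Subtype.ext (toL_inj lv_oo (brd_out.1 ht) (brd_out.1 hs) h1)
    · rintro ⟨L, b, hb⟩
      obtain ⟨h1, h2, h3⟩ := toW_spec (T := N) (by simp : Even (0 : ℤ)) lv_oo rfl hb
      exact ⟨⟨toW N 0 b L, brd_out.2 h1⟩, Subtype.ext h2⟩)

lemma bridgeEquiv_coe {N : ℕ} (hN : 1 ≤ N) (t : {t : List Bool // t ∈ Brd N}) :
    (bridgeEquiv hN t).1 = toL oo t.1 := rfl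

/-- the law of the cut levels of the critical bridge of N rows in terms of lists -/
theorem lawB_lists {N : ℕ} (hN : 1 ≤ N) :
    (Measure.sum fun L : {L : List (ℤ × ℤ) // ∃ b, Crossing N 0 b L} =>
      (wt L.1 / ∑' L : {L : List (ℤ × ℤ) // ∃ b, Crossing N 0 b L}, wt L.1) • Measure.dirac (cutsL N L.1)) =
      CutLim.lawB N := by
  have hB : ∑' L : {L : List (ℤ × ℤ) // ∃ b, Crossing N 0 b L}, wt L.1 = BT N := by
    rw [← (bridgeEquiv hN).tsum_eq, ← gf_Brd]
    unfold gf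
    refine tsum_congr fun t => ?_
    rw [bridgeEquiv_coe, wt_toL]
  rw [hB]
  ext S hS
  unfold CutLim.lawB
  rw [Measure.sum_apply _ hS, Measure.sum_apply _ hS, ← (bridgeEquiv hN).tsum_eq]
  refine tsum_congr fun t => ?_
  rw [bridgeEquiv_coe, wt_toL, cutset_toL hN le_rfl t.2]

end CC

end HexObs
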