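import Pool.Agent.Tight.LawK

/-!
CUT, part C3: the joint law of the cut rows of the critical bridges and of the stopped half plane walk, words.

For a set `B` of rows the numbers `a n` with `a 0 = 1`, `a n = 0` for `n ∈ B`, `a n = ∑ k < n, a k * kk (n - k)` for
`n ∉ B` are the probabilities that `n` is a renewal and that no renewal is in `B`.
-/

set_option autoImplicit false

namespace HexObs

open Finset

open scoped ENNReal

/-- `a` is the sequence of the probabilities that `n` is a renewal and that `B` is avoided -/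
structure AvSeq (B : Set ℕ) (a : ℕ → ℝ) : Prop where
  zero : a 0 = 1
  mem : ∀ n, 1 ≤ n → n ∈ B → a n = 0
  not_mem : ∀ n, 1 ≤ n → n ∉ B → a n = ∑ k ∈ range n, a k * kk (n - k)

/-- the words whose cuts avoid B, among the rows 1, ..., T - 1 -/
def NoCut (B : Set ℕ) (T : ℕ) (t : List Bool) : Prop := ∀ c ∈ B, 1 ≤ c → c < T → ¬ Cut t c

namespace CutH

lemma FC_eq {T j : ℕ} (hT : 1 ≤ T) (hj : T ≤ j) :
    FC T j = {t | ∃ c < T, ∃ a p, a ∈ Brd c ∧ p ∈ Irr (j - c) ∧ t = a ++ p} := by
  ext t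
  constructor
  · rintro ⟨ht, _, hcut⟩
    obtain ⟨c, r, a, p, u, h1, h2, h3, ha, hp, hu, htt⟩ := jump_dec (s := T - 1) (n := j) (by omega) ht
    have h4 : c + r = j := by
      by_contra hne
      exact hcut (c + r) (by omega) (by omega) ⟨a ++ p, u, j - c - r, Brd_append ha hp.1, hu, htt⟩
    have h5 : j - c - r = 0 := by omega
    rw [h5, Brd_zero] at hu
    have h6 : u = [] := hu
    refine ⟨c, by omega, a, p, ha, ?_, ?_⟩
    · have : j - c = r := by omega
      rw [this]
      exact hp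
    · rw [htt, h6, List.append_nil]
  · rintro ⟨c, hc, a, p, ha, hp, rfl⟩
    refine ⟨?_, hj, ?_⟩
    · have h1 := Brd_append ha hp.1
      have : c + (j - c) = j := by omega
      rwa [this] at h1
    · rintro c' h1 h2 ⟨s', u', b, hs', hu', h3⟩
      obtain ⟨v, hv, h4, h5⟩ := cut_nested ha hs' hp.1 hu' (by omega) h3
      rcases hp.2.2 _ _ _ _ hv hu' h5 with h6 | h6
      · rw [h6] at hv
        have := Brd_height hv nil_mem_Brd
        omega
      · have h7 := Brd_append hs' hu'
        rw [← h3] at h7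
        have h8 := Brd_append ha hp.1
        have h9 := Brd_height h7 h8
        rw [h6] at hu'
        have := Brd_height hu' nil_mem_Brd
        omega

lemma FC_self (n : ℕ) : FC n n = Brd n := by
  ext t
  constructor
  · exact fun h => h.1
  · exact fun h => ⟨h, le_rfl, fun c h1 h2 => absurd h2 (by omega)⟩

lemma gf_nil : gf {t : List Bool | t = []} = 1 := by
  have h : {t : List Bool | t = []} = {[]} := rfl
  rw [h]
  unfold gf
  rw [tsum_singleton (f := wE)]
  unfold wE
  simp

/-- decomposition at the last cut below T -/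
lemma noCut_eq (B : Set ℕ) {T j : ℕ} (hT : 1 ≤ T) (hj : T ≤ j) :
    {t | t ∈ FC T j ∧ NoCut B T t} = {t | ∃ c < T, (c = 0 ∨ c ∉ B) ∧ ∃ a p, (a ∈ Brd c ∧ NoCut B c a) ∧
      p ∈ Irr (j - c) ∧ t = a ++ p} := by
  ext t
  constructor
  · rintro ⟨ht, hB⟩
    rw [FC_eq hT hj] at ht
    obtain ⟨c, hc, a, p, ha, hp, rfl⟩ := ht
    refine ⟨c, hc, ?_, a, p, ⟨ha, ?_⟩, hp, rfl⟩
    · by_contra h
      rw [not_or, not_not] at h
      exact hB c h.2 (by omega) hc ⟨a, p, j - c, ha, hp.1, rfl⟩
    · rintro c' h1 h2 h3 ⟨s, u, b, hs, hu, h4⟩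
      refine hB c' h1 h2 (by omega) ⟨s, u ++ p, b + (j - c), hs, Brd_append hu hp.1, ?_⟩
      rw [h4, List.append_assoc]
  · rintro ⟨c, hc, h0, a, p, ⟨ha, hBa⟩, hp, rfl⟩
    refine ⟨?_, ?_⟩
    · rw [FC_eq hT hj]
      exact ⟨c, hc, a, p, ha, hp, rfl⟩
    · rintro c' h1 h2 h3 ⟨s', u', b, hs', hu', h4⟩
      rcases lt_trichotomy c' c with h5 | h5 | h5
      · obtain ⟨v, hv, h6, h7⟩ := cut_nested hs' ha hu' hp.1 h5.le h4.symm
        exact hBa c' h1 h2 h5 ⟨s', v, c - c', hs', hv, h6⟩
      · rw [h5] at h1 h2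
        rcases h0 with h0 | h0
        · omega
        · exact h0 h1
      · obtain ⟨v, hv, h6, h7⟩ := cut_nested ha hs' hp.1 hu' h5.le h4
        rcases hp.2.2 _ _ _ _ hv hu' h7 with h8 | h8
        · rw [h8] at hv
          have := Brd_height hv nil_mem_Brd
          omega
        · have h9 := Brd_append hs' hu'
          rw [← h4] at h9
          have h10 := Brd_append ha hp.1
          have h11 := Brd_height h9 h10
          rw [h8] at hu'
          have := Brd_height hu' nil_mem_Brd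
          omega

lemma gf_dec (B : Set ℕ) {T j : ℕ} (hT : 1 ≤ T) (hj : T ≤ j) [DecidablePred fun c => c = 0 ∨ c ∉ B] :
    gf {t | t ∈ FC T j ∧ NoCut B T t} =
      ∑ c ∈ (range T).filter (fun c => c = 0 ∨ c ∉ B), gf {a | a ∈ Brd c ∧ NoCut B c a} * kap' (j - c) := by
  classical
  have h0 : {t | t ∈ FC T j ∧ NoCut B T t} = ⋃ c ∈ (range T).filter (fun c => c = 0 ∨ c ∉ B),
      {t | ∃ a p, (a ∈ Brd c ∧ NoCut B c a) ∧ p ∈ Irr (j - c) ∧ t = a ++ p} := by
    rw [noCut_eq B hT hj]
    ext t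
    simp only [Set.mem_iUnion, Finset.mem_filter, Finset.mem_range, Set.mem_setOf_eq, exists_prop]
    constructor
    · rintro ⟨c, hc, h1, h2⟩
      exact ⟨c, ⟨hc, h1⟩, h2⟩
    · rintro ⟨c, ⟨hc, h1⟩, h2⟩
      exact ⟨c, hc, h1, h2⟩
  rw [h0, gf_biUnion]
  · apply Finset.sum_congr rfl
    intro c hc
    rw [Finset.mem_filter, Finset.mem_range] at hc
    unfold kap'
    apply le_antisymm
    · apply gf_le_mul
      rintro t ⟨a, p, ha, hp, ht⟩
      exact ⟨a, ha, p, hp, ht⟩
    · refine mul_le_gf (fun a ha b hb => ⟨a, b, ha, hb, rfl⟩) fun a ha b hb a' ha' b' hb' hab => ?_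
      exact (cut_unique ha.1 ha'.1 hb.1 hb'.1 hab).1
  · intro c hc c' hc' hne
    rw [Finset.mem_filter, Finset.mem_range] at hc hc'
    rw [Set.disjoint_left]
    rintro t ⟨a, p, ha, hp, ht⟩ ⟨a', p', ha', hp', ht'⟩
    apply hne
    have h1 : a ++ p ++ [] = a' ++ p' ++ [] := by
      rw [List.append_nil, List.append_nil, ← ht, ← ht']
    have h2 := (jump_unique (s := T - 1) (by omega) (by omega) (by omega) (by omega) ha.1 hp nil_mem_Brd ha'.1 hp'
      nil_mem_Brd h1).1
    rw [h2] at ha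
    exact Brd_height ha.1 ha'.1

end CutH

open CutH

/-- the weight of the bridges whose cuts below the last row avoid B, and of the stopped words -/
theorem gf_FC_noCut {B : Set ℕ} {a : ℕ → ℝ} (ha : AvSeq B a) {T j : ℕ} (hT : 1 ≤ T) (hj : T ≤ j) :
    gf {t | t ∈ FC T j ∧ NoCut B T t} = ∑ c ∈ range T, ENNReal.ofReal (a c) * kap' (j - c) := by
  classical
  induction T using Nat.strong_induction_on generalizing j with
  | _ T ih =>
    rw [gf_dec B hT hj]
    have h1 : ∑ c ∈ range T, ENNReal.ofReal (a c) * kap' (j - c) =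
        ∑ c ∈ (range T).filter (fun c => c = 0 ∨ c ∉ B), ENNReal.ofReal (a c) * kap' (j - c) := by
      symm
      apply Finset.sum_subset (Finset.filter_subset _ _)
      intro c hc hc'
      rw [Finset.mem_filter, not_and, not_or, not_not] at hc'
      have h2 := hc' hc
      rw [ha.mem c (by omega) h2.2, ENNReal.ofReal_zero, zero_mul]
    rw [h1]
    apply Finset.sum_congr rfl
    intro c hc
    rw [Finset.mem_filter, Finset.mem_range] at hc
    congr 1
    rcases Nat.eq_zero_or_pos c with h0 | h0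
    · rw [h0, ha.zero, ENNReal.ofReal_one, ← gf_nil]
      congr 1
      ext t
      rw [Brd_zero]
      constructor
      · exact fun h => h.1
      · exact fun h => ⟨h, fun c _ h1 h2 => absurd h2 (by omega)⟩
    · have h2 := ih c hc.1 h0 le_rfl
      rw [FC_self] at h2
      rw [h2]
      have h3 : c ∉ B := by
        rcases hc.2 with h4 | h4
        · omega
        · exact h4
      rw [ha.not_mem c h0 h3]
      have hnn : ∀ k, 0 ≤ a k := by
        intro k
        induction k using Nat.strong_induction_on with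
        | _ k ihk =>
          rcases Nat.eq_zero_or_pos k with hk | hk
          · rw [hk, ha.zero]
            exact zero_le_one
          · by_cases hkB : k ∈ B
            · rw [ha.mem k hk hkB]
            · rw [ha.not_mem k hk hkB]
              exact Finset.sum_nonneg fun i hi => mul_nonneg (ihk i (Finset.mem_range.1 hi)) (kk_nonneg _)
      rw [ENNReal.ofReal_sum_of_nonneg (fun k _ => mul_nonneg (hnn k) (kk_nonneg _))]
      apply Finset.sum_congr rfl
      intro k _
      rw [ENNReal.ofReal_mul (hnn k)]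
      congr 1
      unfold kk
      rw [ENNReal.ofReal_toReal]
      refine ne_top_of_le_ne_top (?_ : BT (c - k) ≠ ∞) ?_
      · rcases Nat.eq_zero_or_pos (c - k) with h | h
        · rw [h, ← gf_Brd, Brd_zero]
          have : gf {t : List Bool | t = []} = 1 := gf_nil
          intro h'
          have h'' : gf ({[]} : Set (List Bool)) = 1 := this
          rw [h''] at h'
          exact ENNReal.one_ne_top h'
        · exact ne_top_of_le_ne_top ENNReal.one_ne_top (BT_le_one h)
      · unfold kap'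
        rw [← gf_Brd]
        exact gf_mono (fun t ht => ht.1)

namespace CutH

lemma BT_ne_top'' (c : ℕ) : BT c ≠ ∞ := by
  rcases Nat.eq_zero_or_pos c with h | h
  · rw [h, ← gf_Brd, Brd_zero]
    intro h'
    have h'' : gf ({[]} : Set (List Bool)) = 1 := gf_nil
    rw [h''] at h'
    exact ENNReal.one_ne_top h'
  · exact ne_top_of_le_ne_top ENNReal.one_ne_top (BT_le_one h)

lemma kap_kk (r : ℕ) : kap' r = ENNReal.ofReal (kk r) := by
  unfold kk
  rw [ENNReal.ofReal_toReal]
  refine ne_top_of_le_ne_top (BT_ne_top'' r) ?_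
  unfold kap'
  rw [← gf_Brd]
  exact gf_mono (fun t ht => ht.1)

lemma tail {c m : ℕ} (hc : c ≤ m) :
    ∑' j : ℕ, (if m ≤ j then kap' (j - c) else 0) = ENNReal.ofReal (KK' (m - c)) := by
  have h1 : ∑' j : ℕ, (if m ≤ j then kap' (j - c) else 0) = ∑' r : ℕ, kap' (r + (m - c)) := by
    rw [← Summable.sum_add_tsum_nat_add' (k := m) (f := fun j => if m ≤ j then kap' (j - c) else 0)
      ENNReal.summable]
    have h2 : ∑ j ∈ range m, (if m ≤ j then kap' (j - c) else 0) = 0 := by
      apply Finset.sum_eq_zero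
      intro j hj
      rw [Finset.mem_range] at hj
      rw [if_neg (by omega)]
    rw [h2, zero_add]
    apply tsum_congr
    intro r
    rw [if_pos (by omega)]
    congr 1
    omega
  rw [h1]
  have h3 : ∑' r : ℕ, kap' (r + (m - c)) = ENNReal.ofReal (∑' r : ℕ, kk (r + (m - c))) := by
    rw [ENNReal.ofReal_tsum_of_nonneg (fun r => kk_nonneg _) ((summable_nat_add_iff (m - c)).2 summable_kk)]
    apply tsum_congr
    intro r
    exact kap_kk _
  rw [h3]
  congr 1
  unfold KK'
  have h4 := summable_kk.sum_add_tsum_nat_add (m - c)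
  rw [tsum_kk] at h4
  linarith

end CutH

theorem AvSeq.nonneg {B : Set ℕ} {a : ℕ → ℝ} (ha : AvSeq B a) (k : ℕ) : 0 ≤ a k := by
  induction k using Nat.strong_induction_on with
  | _ k ihk =>
    rcases Nat.eq_zero_or_pos k with hk | hk
    · rw [hk, ha.zero]
      exact zero_le_one
    · by_cases hkB : k ∈ B
      · rw [ha.mem k hk hkB]
      · rw [ha.not_mem k hk hkB]
        exact Finset.sum_nonneg fun i hi => mul_nonneg (ihk i (Finset.mem_range.1 hi)) (kk_nonneg _)

/-- bridges of n rows whose cuts in the rows 1, ..., n - 1 avoid B -/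
theorem gf_Brd_noCut {B : Set ℕ} {a : ℕ → ℝ} (ha : AvSeq B a) {n : ℕ} (hn : 1 ≤ n) :
    gf {t | t ∈ Brd n ∧ NoCut B n t} = ENNReal.ofReal (∑ k ∈ range n, a k * kk (n - k)) := by
  have h := gf_FC_noCut ha hn le_rfl
  rw [FC_self] at h
  rw [h, ENNReal.ofReal_sum_of_nonneg (fun k _ => mul_nonneg (ha.nonneg k) (kk_nonneg _))]
  refine Finset.sum_congr rfl fun k _ => ?_
  rw [ENNReal.ofReal_mul (ha.nonneg k), kap_kk]

/-- the stopped words whose first cut at or above T is at or above m and whose cuts in the rows 1, ..., T - 1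
avoid B -/
theorem gf_FCW_noCut {B : Set ℕ} {a : ℕ → ℝ} (ha : AvSeq B a) {T m : ℕ} (hT : 1 ≤ T) (hm : T ≤ m) :
    gf {t | ∃ j, m ≤ j ∧ t ∈ FC T j ∧ NoCut B T t} = ENNReal.ofReal (∑ c ∈ range T, a c * KK' (m - c)) := by
  have h1 : {t | ∃ j, m ≤ j ∧ t ∈ FC T j ∧ NoCut B T t} = ⋃ j : ℕ, {t | m ≤ j ∧ t ∈ FC T j ∧ NoCut B T t} := by
    ext t
    rw [Set.mem_iUnion]
    exact Iff.rfl
  have h2 : ∀ i j : ℕ, ∀ t, t ∈ {t | m ≤ i ∧ t ∈ FC T i ∧ NoCut B T t} →
      t ∈ {t | m ≤ j ∧ t ∈ FC T j ∧ NoCut B T t} → i = j := by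
    rintro i j t ⟨_, hi, _⟩ ⟨_, hj, _⟩
    exact Brd_height hi.1 hj.1
  rw [h1, K1.gf_iUnion _ h2]
  have h3 : ∀ j : ℕ, gf {t | m ≤ j ∧ t ∈ FC T j ∧ NoCut B T t} =
      ∑ c ∈ range T, ENNReal.ofReal (a c) * (if m ≤ j then kap' (j - c) else 0) := by
    intro j
    by_cases hj : m ≤ j
    · have h4 : {t | m ≤ j ∧ t ∈ FC T j ∧ NoCut B T t} = {t | t ∈ FC T j ∧ NoCut B T t} := by
        ext t
        exact ⟨fun h => h.2, fun h => ⟨hj, h⟩⟩
      rw [h4, gf_FC_noCut ha hT (hm.trans hj)]
      apply Finset.sum_congr rfl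
      intro c _
      rw [if_pos hj]
    · have h4 : {t | m ≤ j ∧ t ∈ FC T j ∧ NoCut B T t} = ∅ := by
        ext t
        exact ⟨fun h => absurd h.1 hj, fun h => absurd h (Set.notMem_empty t)⟩
      rw [h4]
      have h5 : gf (∅ : Set (List Bool)) = 0 := by
        unfold gf
        simp
      rw [h5]
      symm
      apply Finset.sum_eq_zero
      intro c _
      rw [if_neg hj, mul_zero]
  simp_rw [h3]
  rw [Summable.tsum_finsetSum (fun _ _ => ENNReal.summable)]
  rw [ENNReal.ofReal_sum_of_nonneg (fun y _ => mul_nonneg (ha.nonneg y) (KK_nonneg _))]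
  apply Finset.sum_congr rfl
  intro c hc
  rw [Finset.mem_range] at hc
  rw [ENNReal.tsum_mul_left, CutH.tail (by omega), ENNReal.ofReal_mul (ha.nonneg c)]

lemma CutH.KK_sub (n : ℕ) : KK' n = KK' (n + 1) + kk n := by
  unfold KK'
  rw [Finset.sum_range_succ]
  ring

/-- the words of the stopped walk whose cuts in the rows 1, ..., T avoid B -/
theorem gf_stop_noCut {B : Set ℕ} {a : ℕ → ℝ} (ha : AvSeq B a) {T : ℕ} (hT : 1 ≤ T) :
    gf {t | t ∈ FCW T ∧ NoCut B (T + 1) t} = ENNReal.ofReal (∑ c ∈ range (T + 1), a c * KK' (T + 1 - c)) := by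
  have hcut : ∀ t j, t ∈ FC T j → (Cut t T ↔ j = T) := by
    intro t j ht
    constructor
    · intro h
      by_contra hne
      exact ht.2.2 T le_rfl (lt_of_le_of_ne ht.2.1 (fun h => hne h.symm)) h
    · intro h
      refine ⟨t, [], 0, ?_, nil_mem_Brd, (List.append_nil t).symm⟩
      rw [← h]
      exact ht.1
  by_cases hB : T ∈ B
  · have h1 : {t | t ∈ FCW T ∧ NoCut B (T + 1) t} = {t | ∃ j, T + 1 ≤ j ∧ t ∈ FC T j ∧ NoCut B T t} := by
      ext t
      constructor
      · rintro ⟨⟨j, hj⟩, h⟩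
        have h2 : j ≠ T := fun h3 => h T hB hT (by omega) ((hcut t j hj).2 h3)
        have h3 := hj.2.1
        exact ⟨j, by omega, hj, fun c h4 h5 h6 => h c h4 h5 (by omega)⟩
      · rintro ⟨j, h1, hj, h⟩
        refine ⟨⟨j, hj⟩, fun c h4 h5 h6 h7 => ?_⟩
        rcases Nat.lt_or_ge c T with h8 | h8
        · exact h c h4 h5 h8 h7
        · have h9 : c = T := by omega
          rw [h9] at h7
          have := (hcut t j hj).1 h7
          omega
    rw [h1, gf_FCW_noCut ha hT (by omega), Finset.sum_range_succ, ha.mem T hT hB, zero_mul, add_zero]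
  · have h1 : {t | t ∈ FCW T ∧ NoCut B (T + 1) t} = {t | ∃ j, T ≤ j ∧ t ∈ FC T j ∧ NoCut B T t} := by
      ext t
      constructor
      · rintro ⟨⟨j, hj⟩, h⟩
        exact ⟨j, hj.2.1, hj, fun c h4 h5 h6 => h c h4 h5 (by omega)⟩
      · rintro ⟨j, h1, hj, h⟩
        refine ⟨⟨j, hj⟩, fun c h4 h5 h6 h7 => ?_⟩
        rcases Nat.lt_or_ge c T with h8 | h8
        · exact h c h4 h5 h8 h7
        · have h9 : c = T := by omega
          rw [h9] at h4
          exact hB h4
    rw [h1, gf_FCW_noCut ha hT le_rfl]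
    congr 1
    rw [Finset.sum_range_succ]
    have h2 : T + 1 - T = 1 := by omega
    have h3 : KK' 1 = 1 := by
      unfold KK'
      rw [Finset.sum_range_one, kk_zero, sub_zero]
    rw [h2, h3, mul_one, ha.not_mem T hT hB, ← Finset.sum_add_distrib]
    apply Finset.sum_congr rfl
    intro c hc
    rw [Finset.mem_range] at hc
    have h4 : T + 1 - c = T - c + 1 := by omega
    rw [h4, CutH.KK_sub (T - c)]
    ring

end HexObs
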